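import Pool.Agent.H54.LQ.Targets

/-!
# The selection theorem, with dense selectors (helper13, row KRN of lpq_modules)
-/

set_option autoImplicit false

open Set Filter Topology

namespace Pool.Agent.H13.LPQ

open Pool.Agent.H93.CP Pool.Agent.H7.LP Pool.Agent.H7.LQ Pool.Agent.H54.LQ

theorem pf_KRN (h1 : T_SEG) : T_KRN := by
  classical
  intro Ω E _ _ _ _ _ _ Φ hcl hne hmeas
  obtain ⟨b, hbc, -, hb⟩ := TopologicalSpace.exists_countable_basis E
  obtain ⟨U, hU⟩ := (hbc.insert univ).exists_eq_range (insert_nonempty _ _)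
  have hUo : ∀ p, IsOpen (U p) := by
    intro p
    have h2 : U p ∈ insert univ b := by rw [hU]; exact mem_range_self p
    rcases h2 with h | h
    · rw [h]; exact isOpen_univ
    · exact hb.isOpen h
  have hUb : ∀ (a : E), ∀ O ∈ 𝓝 a, ∃ p, a ∈ U p ∧ U p ⊆ O := by
    intro a O hO
    obtain ⟨V, hV, haV, hVO⟩ := hb.mem_nhds_iff.mp hO
    have h2 : V ∈ range U := by rw [← hU]; exact mem_insert_of_mem _ hV
    obtain ⟨p, rfl⟩ := h2
    exact ⟨p, haV, hVO⟩
  obtain ⟨sel, hsel, hs⟩ := h1 E U hUo hUb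
  let c : Ω → ℕ → Bool := fun w p => decide (Φ w ∩ U p).Nonempty
  have hcp : ∀ w p, c w p = true ↔ (Φ w ∩ U p).Nonempty := fun w p => decide_eq_true_iff
  have hc : Measurable c := by
    rw [measurable_pi_iff]
    intro p
    apply measurable_to_bool
    have h2 : (fun w => c w p) ⁻¹' {true} = {w | (Φ w ∩ U p).Nonempty} := by
      ext w
      exact hcp w p
    rw [h2]
    exact hmeas _ (hUo p)
  exact ⟨fun n w => sel (c w) n, fun n => (hsel n).comp hc,
    fun n w => (hs (Φ w) (c w) (hcl w) (hne w) (hcp w)).1 n,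
    fun w => (hs (Φ w) (c w) (hcl w) (hne w) (hcp w)).2⟩

end Pool.Agent.H13.LPQ
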